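import Pool.Agent.L0h78.PL.Rnd

/-! General linear equations are hard for parallel machines with word inputs. -/

set_option linter.unusedSectionVars false
set_option linter.unusedVariables false

namespace Pool.Agent.L0h78.PL

open Finset Pool.Agent.W964.Wd H568R2 H592R3 Pool.Agent.W964.Pram

open Classical in
theorem core {K : ℕ} (hK : 2 ≤ K) (c : Fin (K + 1) → ℤ) (d : ℤ) (hc : ∀ j, c j ≠ 0)
    (hsol : ∃ x : Fin (K + 1) → ℤ, ∑ j, c j * x j = d) (ε : ℝ) (hε : 0 < ε) (hε1 : ε ≤ 1)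
    (Kl : ℕ) : ∃ δ : ℝ, 0 < δ ∧ ∃ n₀ : ℕ,
    ∀ n : ℕ, n₀ ≤ n → ∃ (Ξ : Type) (_ : Fintype Ξ) (μ : Ξ → ℝ) (x x' : Ξ → Fin n → ℤ),
      (∀ ξ, 0 ≤ μ ξ) ∧ ∑ ξ, μ ξ = 1 ∧
      (∀ ξ, μ ξ ≠ 0 → Inst (K + 1) n (x ξ) ∧ ¬ Yes c d (x ξ) ∧ Inst (K + 1) n (x' ξ) ∧
        Yes c d (x' ξ)) ∧
      ∀ T P : ℕ, 1 ≤ T → T * Real.log (Real.log n) ≤ δ * Real.log n →
        (P : ℝ) ≤ (n : ℝ) ^ (((K + 2) / 2 : ℕ) - ε) → ∀ M : Machine ℤ (Fin n) P, M.Lists (n ^ Kl) →
        ∑ ξ, μ ξ * (if M.result T (x ξ) ≠ M.result T (x' ξ) then (1 : ℝ) else 0) ≤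
          (n : ℝ) ^ (-(ε / 3)) := by
  obtain ⟨δ, hδ, n₁, hpar⟩ := params (ε / 2) (by linarith) (Kl + K + 2) (2 * K + 2)
  obtain ⟨Ct, hCt⟩ := exists_tags hK c d hc hsol
  obtain ⟨D0, hD0⟩ : ∃ D0, D0 = (K + 1) * (K + 1) := ⟨_, rfl⟩
  obtain ⟨Cs, hCs⟩ : ∃ Cs : ℝ, Cs = 6 * (K : ℝ) ^ K * 2 ^ (K + 1) * (2 * D0) ^ K := ⟨_, rfl⟩
  have hD0p : 1 ≤ D0 := by rw [hD0]; nlinarith
  have hD0R : (1 : ℝ) ≤ D0 := by exact_mod_cast hD0p
  have hK1 : 1 ≤ K := by omega
  have hKR : (2 : ℝ) ≤ K := by exact_mod_cast hK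
  have hCs1 : 1 ≤ Cs := by
    rw [hCs]
    have h1 : (1 : ℝ) ≤ (K : ℝ) ^ K := one_le_pow₀ (by linarith)
    have h2 : (1 : ℝ) ≤ 2 ^ (K + 1) := one_le_pow₀ (by norm_num)
    have h3 : (1 : ℝ) ≤ (2 * (D0 : ℝ)) ^ K := one_le_pow₀ (by linarith)
    have h4 : (1 : ℝ) ≤ (K : ℝ) ^ K * 2 ^ (K + 1) := one_le_mul_of_one_le_of_one_le h1 h2
    have h5 : (1 : ℝ) ≤ (K : ℝ) ^ K * 2 ^ (K + 1) * (2 * D0) ^ K :=
      one_le_mul_of_one_le_of_one_le h4 h3
    nlinarith
  refine ⟨δ, hδ, n₁ + 2 * D0 + ⌈Cs ^ (6 / ε)⌉₊ +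
    (Ct + 1) * (fsum c * (K * (2 * (K + 1))) + 1), ?_⟩
  intro n hn
  have hn1 : n₁ ≤ n := by omega
  have hnD : 2 * D0 ≤ n := by omega
  have hnc : ⌈Cs ^ (6 / ε)⌉₊ ≤ n := by omega
  have hnt : (Ct + 1) * (fsum c * (K * (2 * (K + 1))) + 1) ≤ n := by omega
  have hn1' : 1 ≤ n := by omega
  have hnR : (0 : ℝ) < n := by exact_mod_cast hn1'
  have hnR1 : (1 : ℝ) ≤ n := by exact_mod_cast hn1'
  have hbig : Cs ≤ (n : ℝ) ^ (ε / 6) := by
    have h1 : Cs ^ (6 / ε) ≤ n := (Nat.le_ceil _).trans (by exact_mod_cast hnc)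
    have h2 := Real.rpow_le_rpow (by positivity) h1 (by positivity : 0 ≤ ε / 6)
    rw [← Real.rpow_mul (by linarith)] at h2
    have h3 : 6 / ε * (ε / 6) = 1 := by field_simp
    rwa [h3, Real.rpow_one] at h2
  obtain ⟨N0, hN0⟩ : ∃ N0, N0 = 2 * (K + 1) * n ^ K := ⟨_, rfl⟩
  have hN0p : 0 < N0 := by rw [hN0]; positivity
  obtain ⟨N, hNdef⟩ : ∃ N, N = K * N0 := ⟨_, rfl⟩
  have hN1 : 0 < N := by rw [hNdef]; positivity
  have : NeZero N := ⟨by omega⟩
  have hNR : (0 : ℝ) < N := by exact_mod_cast hN1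
  obtain ⟨t, ht1, ht2, ht3⟩ := hCt (fsum c * (N * n))
  have hfar : Far c t N n := ht2
  have hinst : ∀ Z : Fin n → Fin N, Inst (K + 1) n (srt c t hN1 Z) := by
    intro Z
    refine ⟨srt_mono hN1 hc hfar Z, fun i => ?_⟩
    have h1 : |srt c t hN1 Z i| ≤ (((Ct + 1) * (fsum c * (N * n) + 1) : ℕ) : ℤ) :=
      raw_le ht3 Z _
    refine h1.trans ?_
    have h2 : (Ct + 1) * (fsum c * (N * n) + 1) ≤ n ^ (K + 1 + 1) := by
      have h3 : N * n = K * (2 * (K + 1)) * n ^ (K + 1) := by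
        rw [hNdef, hN0, pow_succ]
        ring
      have h4 : 1 ≤ n ^ (K + 1) := Nat.one_le_pow _ _ hn1'
      calc (Ct + 1) * (fsum c * (N * n) + 1)
          ≤ (Ct + 1) * (fsum c * (K * (2 * (K + 1)) * n ^ (K + 1)) + n ^ (K + 1)) := by
            rw [h3]
            exact Nat.mul_le_mul_left _ (by omega)
        _ = (Ct + 1) * (fsum c * (K * (2 * (K + 1))) + 1) * n ^ (K + 1) := by ring
        _ ≤ n * n ^ (K + 1) := Nat.mul_le_mul_right _ hnt
        _ = n ^ (K + 1 + 1) := by rw [pow_succ n (K + 1)]; ring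
    exact_mod_cast h2
  obtain ⟨lam, hlam⟩ : ∃ lam : Fin N → ℝ, lam = fun _ => 1 / (N : ℝ) := ⟨_, rfl⟩
  have hl0 : ∀ a, 0 ≤ lam a := by intro a; rw [hlam]; positivity
  have hl1 : ∑ a, lam a = 1 := by
    rw [hlam, Finset.sum_const, Finset.card_univ, Fintype.card_fin, nsmul_eq_mul]
    field_simp
  have hprod : ∀ Z : Fin n → Fin N, 0 ≤ ∏ i, lam (Z i) :=
    fun Z => Finset.prod_nonneg fun i _ => hl0 _
  -- no-instances
  obtain ⟨no, hno⟩ : ∃ no : (Fin n → Fin N) → ℝ,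
    no = fun Z => if Yes c d (raw c t Z) then 0 else 1 := ⟨_, rfl⟩
  have hno0 : ∀ Z, 0 ≤ no Z := by intro Z; rw [hno]; dsimp only; split_ifs <;> norm_num
  have hno1 : ∀ Z, no Z ≤ 1 := by intro Z; rw [hno]; dsimp only; split_ifs <;> norm_num
  obtain ⟨p0, hp0⟩ : ∃ p0 : ℝ, p0 = Ex lam no := ⟨_, rfl⟩
  have hp0' : 1 / 2 ≤ p0 := by
    have h1 := yes_prob (t := t) (d := d) hN1 hc (n := n) (by
      rw [hNdef, hN0]
      have h9 : 1 ≤ n ^ K := Nat.one_le_pow _ _ hn1'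
      calc 2 * ((K + 1) * n ^ K) = 1 * (2 * (K + 1) * n ^ K) := by ring
        _ ≤ K * (2 * (K + 1) * n ^ K) := Nat.mul_le_mul_right _ hK1)
    have h2 : Ex lam no + Ex (fun _ : Fin N => 1 / (N : ℝ)) (fun Z : Fin n → Fin N =>
        if Yes c d (raw c t Z) then (1 : ℝ) else 0) = 1 := by
      rw [← hlam, ← Ex_add]
      have h3 : (fun Z : Fin n → Fin N => no Z + (if Yes c d (raw c t Z) then (1 : ℝ) else 0)) =
          fun _ => 1 := by
        funext Z
        rw [hno]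
        dsimp only
        split_ifs <;> norm_num
      rw [h3, Ex_const hl1]
    rw [hp0]
    linarith
  have hp00 : 0 < p0 := by linarith
  obtain ⟨m, hm⟩ : ∃ m, m = n / D0 := ⟨_, rfl⟩
  have hmn : m ≤ n := by rw [hm]; exact Nat.div_le_self _ _
  have hm1 : 1 ≤ m := by
    rw [hm, Nat.le_div_iff_mul_le (by omega)]
    omega
  have hmpos : (K + 1) * (K * m) ≤ n := by
    calc (K + 1) * (K * m) ≤ (K + 1) * ((K + 1) * m) :=
          Nat.mul_le_mul_left _ (Nat.mul_le_mul_right _ (by omega))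
      _ = D0 * (n / D0) := by rw [hD0, hm, hD0]; ring
      _ ≤ n := Nat.mul_div_le _ _
  have hmR : (n : ℝ) / (2 * D0) ≤ m := by
    have h1 : n < D0 * (m + 1) := by
      rw [hm]
      exact Nat.lt_mul_div_succ n (by omega)
    have h2 : (n : ℝ) < D0 * (m + 1) := by exact_mod_cast h1
    have h3 : (1 : ℝ) ≤ m := by exact_mod_cast hm1
    rw [div_le_iff₀ (by positivity)]
    nlinarith
  have hm0 : (0 : ℝ) < m := by exact_mod_cast hm1
  have hN0R : (0 : ℝ) < N0 := by exact_mod_cast hN0p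
  have hKN : K * N0 ≤ N := hNdef.ge
  obtain ⟨D, hD⟩ : ∃ D : (Fin n → Fin N) × (Fin K → Fin N0) → ℝ,
    D = fun ω => (∏ i, lam (ω.1 i)) * (1 / (N0 : ℝ)) ^ K := ⟨_, rfl⟩
  have hDn : ∀ ω, 0 ≤ D ω := by
    intro ω; rw [hD]; exact mul_nonneg (hprod _) (by positivity)
  refine ⟨(Fin K → Fin m) × ((Fin n → Fin N) × (Fin K → Fin N0)), inferInstance,
    fun ξ => (1 / ((m : ℝ) ^ K * p0)) * (D ξ.2 * no ξ.2.1), fun ξ => srt c t hN1 ξ.2.1,
    fun ξ => srt c t hN1 (Function.extend (vpos hK1 hmpos ξ.1) (yv hK1 hKN ξ.2.2) ξ.2.1),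
    ?_, ?_, ?_, ?_⟩
  · intro ξ
    exact mul_nonneg (by positivity) (mul_nonneg (hDn _) (hno0 _))
  · rw [← Finset.mul_sum, Fintype.sum_prod_type]
    dsimp only
    rw [Finset.sum_const, Finset.card_univ, Fintype.card_fun, Fintype.card_fin,
      Fintype.card_fin, nsmul_eq_mul]
    have h1 : ∑ ω : (Fin n → Fin N) × (Fin K → Fin N0), D ω * no ω.1 = p0 := by
      rw [Fintype.sum_prod_type, hp0]
      unfold Ex
      refine Finset.sum_congr rfl fun Z _ => ?_
      rw [hD]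
      dsimp only
      rw [Finset.sum_const, Finset.card_univ, Fintype.card_fun, Fintype.card_fin,
        Fintype.card_fin, nsmul_eq_mul]
      push_cast
      rw [one_div_pow]
      field_simp
    rw [h1]
    push_cast
    field_simp
  · intro ξ hξ
    have h1 : no ξ.2.1 ≠ 0 := by
      intro h
      apply hξ
      dsimp only
      rw [h, mul_zero, mul_zero]
    have h3 : ¬ Yes c d (raw c t ξ.2.1) := by
      intro h
      apply h1
      rw [hno]
      dsimp only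
      rw [if_pos h]
    dsimp only
    refine ⟨hinst _, fun h => h3 ((srt_yes hN1 _).mp h), hinst _, (srt_yes hN1 _).mpr ?_⟩
    exact planted_yes hK1 hmpos hKN ht1 ξ.1 ξ.2.1 ξ.2.2
  · intro T P hT hTn hP M hM
    obtain ⟨l, A, hl, hTl, hKl, hA, hsX, hX⟩ := hpar n T hn1 hT hTn
    obtain ⟨X, hXdef⟩ : ∃ X, X = 192 * T * (3 * l + A) * l := ⟨_, rfl⟩
    obtain ⟨L, hL⟩ : ∃ L, L = (K + 2) / 2 := ⟨_, rfl⟩
    rw [← hL] at hP
    have hL2 : 2 ≤ L := by omega
    have hLK : L ≤ K := by omega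
    have hLK2 : 2 * (L - 1) ≤ K := by omega
    rw [← hXdef] at hsX hX
    have hX1 : (1 : ℝ) ≤ X := by exact_mod_cast (by omega : 1 ≤ X)
    have hnK : n ^ Kl ≤ n ^ (Kl + K + 2) := Nat.pow_le_pow_right hn1' (by omega)
    have hnL : n ^ L ≤ n ^ (Kl + K + 2) := Nat.pow_le_pow_right hn1' (by omega)
    have hnKK : n ^ K ≤ n ^ (Kl + K + 2) := Nat.pow_le_pow_right hn1' (by omega)
    have hPn : P ≤ n ^ L := by
      have h1 : (n : ℝ) ^ ((L : ℝ) - ε) ≤ (n : ℝ) ^ (L : ℝ) :=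
        Real.rpow_le_rpow_of_exponent_le hnR1 (by linarith)
      rw [Real.rpow_natCast] at h1
      exact_mod_cast hP.trans h1
    have hmain := tuple2 (K := Fin K → Fin m) M (srt_blk (c := c) (t := t) (n := n) hN1) hl0 hl1
      (vpos hK1 hmpos) (vpos_inj hK1 hmpos) (Kl := n ^ Kl) (l := l) (A := A) (T := T) (L := L)
      (X := X) hT hl hTl hM
      (by omega) (by omega) hL2 hXdef (by omega) (fun s => m ^ (K - s))
      (fun H V h1 h2 => vpos_count hK1 hmpos H V h1 (by omega))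
      (Ω := (Fin n → Fin N) × (Fin K → Fin N0)) (fun _ => D) (fun _ => hDn) (fun _ ω => ω.1)
      (fun _ ω => yv hK1 hKN ω.2) (C0 := (K : ℝ) ^ K) (by positivity) (by
        intro κ H hH1 hH2 G hG0 hG
        rw [Fintype.sum_prod_type]
        dsimp only
        have h1 : ∀ Z : Fin n → Fin N, ∑ p : Fin K → Fin N0,
            D (Z, p) * G Z (yv hK1 hKN p) ≤ (∏ i, lam (Z i)) *
              ((K : ℝ) ^ K * Ex lam (fun y => G Z y)) := by
          intro Z
          have h2 : ∑ w : Fin K → Fin N0, (1 / (N0 : ℝ)) ^ K * G Z (yv hK1 hKN w) ≤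
              (K : ℝ) ^ K * Ex lam (fun y => G Z y) := by
            subst hNdef
            rw [hlam]
            exact plant_dom hK1 hN0p H (by omega) (G Z) (hG0 Z) (hG Z)
          refine le_trans (le_of_eq ?_) (mul_le_mul_of_nonneg_left h2 (hprod Z))
          rw [hD, Finset.mul_sum]
          refine Finset.sum_congr rfl fun p _ => ?_
          dsimp only
          ring
        refine (Finset.sum_le_sum fun Z _ => h1 Z).trans (le_of_eq ?_)
        rw [← Ex_smul]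
        rfl)
    -- the bound
    obtain ⟨W, hW⟩ : ∃ W : ℝ, W = (n : ℝ) ^ (ε / 2) * (3 * (n : ℝ) ^ ((K : ℝ) - ε)) := ⟨_, rfl⟩
    have hW0 : 0 ≤ W := by rw [hW]; positivity
    have hsum : ∑ H ∈ univ.filter (fun H : Finset (Fin (K + 1)) => 1 ≤ H.card ∧
        H.card ≤ 2 * (L - 1)),
        (X : ℝ) ^ (8 * T * H.card) * ((if H.card < L then (1 : ℝ) else (P : ℝ)) *
          ((m ^ (K - H.card) : ℕ) : ℝ) +
          (Fintype.card (Fin K → Fin m) : ℝ) * (1 / 2) ^ A) ≤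
        2 ^ (K + 1) * W := by
      have h1 : ∀ H ∈ univ.filter (fun H : Finset (Fin (K + 1)) => 1 ≤ H.card ∧
          H.card ≤ 2 * (L - 1)),
          (X : ℝ) ^ (8 * T * H.card) * ((if H.card < L then (1 : ℝ) else (P : ℝ)) *
          ((m ^ (K - H.card) : ℕ) : ℝ) +
          (Fintype.card (Fin K → Fin m) : ℝ) * (1 / 2) ^ A) ≤ W := by
        intro H hH
        obtain ⟨hH1, hH2⟩ := (Finset.mem_filter.1 hH).2
        have h2 : (X : ℝ) ^ (8 * T * H.card) ≤ (n : ℝ) ^ (ε / 2) := by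
          refine le_trans ?_ hX
          apply pow_le_pow_right₀ hX1
          exact Nat.mul_le_mul_left _ (by omega)
        have h3 : (Fintype.card (Fin K → Fin m) : ℝ) * (1 / 2) ^ A ≤ 1 := by
          rw [Fintype.card_fun, Fintype.card_fin, Fintype.card_fin, one_div_pow, mul_one_div,
            div_le_one (by positivity)]
          have h4 : m ^ K ≤ 2 ^ A := (Nat.pow_le_pow_left hmn K).trans (hnKK.trans hA)
          exact_mod_cast h4
        have hone : (1 : ℝ) ≤ (n : ℝ) ^ ((K : ℝ) - ε) := Real.one_le_rpow hnR1 (by linarith)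
        have h4 : (if H.card < L then (1 : ℝ) else (P : ℝ)) * ((m ^ (K - H.card) : ℕ) : ℝ) ≤
            2 * (n : ℝ) ^ ((K : ℝ) - ε) := by
          have hPR : (0 : ℝ) ≤ P := Nat.cast_nonneg P
          by_cases hcd : H.card < L
          · rw [if_pos hcd, one_mul]
            have h5 : m ^ (K - H.card) ≤ n ^ (K - 1) :=
              (Nat.pow_le_pow_left hmn _).trans (Nat.pow_le_pow_right hn1' (by omega))
            have h6 : ((m ^ (K - H.card) : ℕ) : ℝ) ≤ (n : ℝ) ^ (K - 1) := by exact_mod_cast h5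
            have h7 : (n : ℝ) ^ (K - 1) ≤ (n : ℝ) ^ ((K : ℝ) - ε) := by
              rw [← Real.rpow_natCast]
              apply Real.rpow_le_rpow_of_exponent_le hnR1
              rw [Nat.cast_sub (by omega)]
              push_cast
              linarith
            linarith
          · rw [if_neg hcd]
            have h5 : m ^ (K - H.card) ≤ n ^ (K - L) :=
              (Nat.pow_le_pow_left hmn _).trans (Nat.pow_le_pow_right hn1' (by omega))
            have h6 : ((m ^ (K - H.card) : ℕ) : ℝ) ≤ (n : ℝ) ^ (K - L) := by exact_mod_cast h5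
            have h7 : (P : ℝ) * ((m ^ (K - H.card) : ℕ) : ℝ) ≤
                (n : ℝ) ^ ((L : ℝ) - ε) * (n : ℝ) ^ (K - L) :=
              mul_le_mul hP h6 (Nat.cast_nonneg _) (by positivity)
            have h8 : (n : ℝ) ^ ((L : ℝ) - ε) * (n : ℝ) ^ (K - L) = (n : ℝ) ^ ((K : ℝ) - ε) := by
              rw [← Real.rpow_natCast (n : ℝ) (K - L), ← Real.rpow_add hnR]
              congr 1
              rw [Nat.cast_sub hLK]
              ring
            rw [h8] at h7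
            linarith
        rw [hW]
        refine mul_le_mul h2 ?_ ?_ (by positivity)
        · linarith
        · have : (0 : ℝ) ≤ (if H.card < L then (1 : ℝ) else (P : ℝ)) := by
            split_ifs
            · norm_num
            · exact Nat.cast_nonneg _
          positivity
      refine (Finset.sum_le_card_nsmul _ _ _ h1).trans ?_
      rw [nsmul_eq_mul]
      apply mul_le_mul_of_nonneg_right _ hW0
      have h2 : (univ.filter (fun H : Finset (Fin (K + 1)) =>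
          1 ≤ H.card ∧ H.card ≤ 2 * (L - 1))).card ≤ 2 ^ (K + 1) := by
        refine (Finset.card_le_univ _).trans ?_
        rw [Fintype.card_finset, Fintype.card_fin]
      exact_mod_cast h2
    have htot : ∑ κ : Fin K → Fin m, ∑ ω : (Fin n → Fin N) × (Fin K → Fin N0),
        D ω * (if M.result T (srt c t hN1 ω.1) ≠
        M.result T (srt c t hN1 (Function.extend (vpos hK1 hmpos κ) (yv hK1 hKN ω.2) ω.1))
          then (1 : ℝ) else 0) ≤ (K : ℝ) ^ K * (2 ^ (K + 1) * W) := by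
      refine hmain.trans ?_
      exact mul_le_mul_of_nonneg_left hsum (by positivity)
    rw [Fintype.sum_prod_type]
    dsimp only
    have h1 : ∀ κ : Fin K → Fin m, ∑ ω : (Fin n → Fin N) × (Fin K → Fin N0),
        (1 / ((m : ℝ) ^ K * p0)) * (D ω * no ω.1) * (if M.result T (srt c t hN1 ω.1) ≠
        M.result T (srt c t hN1 (Function.extend (vpos hK1 hmpos κ) (yv hK1 hKN ω.2) ω.1))
          then (1 : ℝ) else 0) ≤ (2 / (m : ℝ) ^ K) *
        ∑ ω : (Fin n → Fin N) × (Fin K → Fin N0), D ω * (if M.result T (srt c t hN1 ω.1) ≠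
        M.result T (srt c t hN1 (Function.extend (vpos hK1 hmpos κ) (yv hK1 hKN ω.2) ω.1))
          then (1 : ℝ) else 0) := by
      intro κ
      rw [Finset.mul_sum]
      refine Finset.sum_le_sum fun ω _ => ?_
      have hmK : (0 : ℝ) < (m : ℝ) ^ K := by positivity
      have h2 : 1 / ((m : ℝ) ^ K * p0) ≤ 2 / (m : ℝ) ^ K := by
        rw [div_le_div_iff₀ (by positivity) (by positivity)]
        nlinarith
      have h3 : (0 : ℝ) ≤ (if M.result T (srt c t hN1 ω.1) ≠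
        M.result T (srt c t hN1 (Function.extend (vpos hK1 hmpos κ) (yv hK1 hKN ω.2) ω.1))
          then (1 : ℝ) else 0) := by split_ifs <;> norm_num
      have h4 : D ω * no ω.1 ≤ D ω := by
        have := mul_le_mul_of_nonneg_left (hno1 ω.1) (hDn ω)
        rwa [mul_one] at this
      calc (1 / ((m : ℝ) ^ K * p0)) * (D ω * no ω.1) * _ ≤ (2 / (m : ℝ) ^ K) * D ω * _ :=
            mul_le_mul_of_nonneg_right (mul_le_mul h2 h4 (mul_nonneg (hDn _) (hno0 _))
              (by positivity)) h3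
        _ = _ := by ring
    refine (Finset.sum_le_sum fun κ _ => h1 κ).trans ?_
    rw [← Finset.mul_sum]
    refine (mul_le_mul_of_nonneg_left htot (by positivity)).trans ?_
    have h3 : 2 / (m : ℝ) ^ K ≤ 2 * (2 * D0) ^ K / (n : ℝ) ^ K := by
      rw [div_le_div_iff₀ (by positivity) (by positivity)]
      have h4 : ((n : ℝ) / (2 * D0)) ^ K ≤ (m : ℝ) ^ K :=
        pow_le_pow_left₀ (by positivity) hmR K
      rw [div_pow, div_le_iff₀ (by positivity)] at h4
      nlinarith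
    calc 2 / (m : ℝ) ^ K * ((K : ℝ) ^ K * (2 ^ (K + 1) * W))
        ≤ 2 * (2 * D0) ^ K / (n : ℝ) ^ K * ((K : ℝ) ^ K * (2 ^ (K + 1) * W)) :=
          mul_le_mul_of_nonneg_right h3 (by positivity)
      _ = Cs * (n : ℝ) ^ (-(ε / 2)) := by
          have h4 : (n : ℝ) ^ (ε / 2) * (n : ℝ) ^ ((K : ℝ) - ε) =
              (n : ℝ) ^ (-(ε / 2)) * (n : ℝ) ^ K := by
            rw [← Real.rpow_natCast (n : ℝ) K, ← Real.rpow_add hnR, ← Real.rpow_add hnR]
            congr 1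
            ring
          calc 2 * (2 * (D0 : ℝ)) ^ K / (n : ℝ) ^ K * ((K : ℝ) ^ K * (2 ^ (K + 1) * W)) =
              Cs / (n : ℝ) ^ K * ((n : ℝ) ^ (ε / 2) * (n : ℝ) ^ ((K : ℝ) - ε)) := by
                rw [hW, hCs]
                ring
            _ = Cs / (n : ℝ) ^ K * ((n : ℝ) ^ (-(ε / 2)) * (n : ℝ) ^ K) := by rw [h4]
            _ = Cs * (n : ℝ) ^ (-(ε / 2)) := by field_simp
      _ ≤ (n : ℝ) ^ (ε / 6) * (n : ℝ) ^ (-(ε / 2)) :=
          mul_le_mul_of_nonneg_right hbig (by positivity)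
      _ = (n : ℝ) ^ (-(ε / 3)) := by
          rw [← Real.rpow_add hnR]
          congr 1
          ring

end Pool.Agent.L0h78.PL
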