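import Mathlib

/-! Tags for lists of integers and a general linear equation. -/

namespace Pool.Agent.L0h78.PL

open Finset

/-- Finitely many nonzero polynomials have a common non-root. -/
lemma avoid {J : Type} [Finite J] (p : J → Polynomial ℤ) (hp : ∀ j, p j ≠ 0) :
    ∃ N : ℤ, ∀ j, (p j).eval N ≠ 0 := by
  have hfin : (⋃ j, {N : ℤ | (p j).IsRoot N}).Finite := by
    apply Set.finite_iUnion
    intro j
    exact Polynomial.finite_setOfPred_isRoot (hp j)
  obtain ⟨N, hN⟩ := hfin.exists_notMem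
  refine ⟨N, fun j hj => hN ?_⟩
  rw [Set.mem_iUnion]
  exact ⟨j, hj⟩

open Polynomial in
/-- A solution of the homogeneous equation with different entries. -/
theorem exists_h {K : ℕ} (hK : 2 ≤ K) (c : Fin (K + 1) → ℤ) (hc : ∀ j, c j ≠ 0) :
    ∃ h : Fin (K + 1) → ℤ, ∑ j, c j * h j = 0 ∧ Function.Injective h := by
  classical
  let q : Fin (K + 1) → ℤ[X] := Fin.cons (-∑ i : Fin K, C (c i.succ) * X ^ (i : ℕ))
    (fun i => C (c 0) * X ^ (i : ℕ))
  have q0 : q 0 = -∑ i : Fin K, C (c i.succ) * X ^ (i : ℕ) := rfl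
  have qs : ∀ i : Fin K, q i.succ = C (c 0) * X ^ (i : ℕ) := fun i => rfl
  have cf0 : ∀ l : Fin K, (q 0).coeff l = -c l.succ := by
    intro l
    rw [q0, coeff_neg, finsetSum_coeff]
    congr 1
    rw [Finset.sum_eq_single l]
    · rw [coeff_C_mul, coeff_X_pow, if_pos rfl, mul_one]
    · intro i _ hi
      rw [coeff_C_mul, coeff_X_pow, if_neg, mul_zero]
      intro h
      exact hi (Fin.ext h.symm)
    · simp
  have cfs : ∀ i l : Fin K, (q i.succ).coeff l = if l = i then c 0 else 0 := by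
    intro i l
    rw [qs, coeff_C_mul, coeff_X_pow]
    by_cases h : l = i
    · rw [if_pos h, if_pos (congrArg Fin.val h), mul_one]
    · rw [if_neg h, if_neg (fun h' => h (Fin.ext h')), mul_zero]
  have key : ∀ i j : Fin (K + 1), i ≠ j → q i - q j ≠ 0 := by
    have h1 : ∀ j : Fin K, q 0 - q j.succ ≠ 0 := by
      intro j h0
      obtain ⟨l, hl⟩ : ∃ l : Fin K, l ≠ j := by
        have : Nontrivial (Fin K) := Fin.nontrivial_iff_two_le.mpr hK
        exact exists_ne j
      have h2 : (q 0 - q j.succ).coeff l = 0 := by rw [h0, coeff_zero]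
      rw [coeff_sub, cf0, cfs, if_neg hl, sub_zero, neg_eq_zero] at h2
      exact hc _ h2
    intro i j hij
    induction i using Fin.cases with
    | zero =>
      induction j using Fin.cases with
      | zero => exact absurd rfl hij
      | succ j => exact h1 j
    | succ i =>
      induction j using Fin.cases with
      | zero =>
        intro h0
        apply h1 i
        rw [← neg_sub, h0, neg_zero]
      | succ j =>
        intro h0
        have hne : i ≠ j := fun h => hij (congrArg Fin.succ h)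
        have h2 : (q i.succ - q j.succ).coeff i = 0 := by rw [h0, coeff_zero]
        rw [coeff_sub, cfs, cfs, if_pos rfl, if_neg hne, sub_zero] at h2
        exact hc _ h2
  obtain ⟨N, hN⟩ := avoid (J := {p : Fin (K + 1) × Fin (K + 1) // p.1 ≠ p.2})
    (fun p => q p.1.1 - q p.1.2) (fun p => key _ _ p.2)
  refine ⟨fun j => (q j).eval N, ?_, ?_⟩
  · have h1 : ∑ j, C (c j) * q j = 0 := by
      rw [Fin.sum_univ_succ, q0]
      simp only [qs]
      rw [mul_neg, Finset.mul_sum, ← Finset.sum_neg_distrib, ← Finset.sum_add_distrib]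
      apply Finset.sum_eq_zero
      intro i _
      ring
    have h2 := congrArg (fun p => p.eval N) h1
    simp only [eval_finsetSum, eval_mul, eval_C, eval_zero] at h2
    exact h2
  · intro i j hij
    by_contra hne
    apply hN ⟨(i, j), hne⟩
    show (q i - q j).eval N = 0
    rw [eval_sub]
    exact sub_eq_zero.mpr hij

/-- Tags which are far from each other and not too large. -/
theorem exists_tags {K : ℕ} (hK : 2 ≤ K) (c : Fin (K + 1) → ℤ) (d : ℤ) (hc : ∀ j, c j ≠ 0)
    (hsol : ∃ x : Fin (K + 1) → ℤ, ∑ j, c j * x j = d) :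
    ∃ C : ℕ, ∀ R : ℕ, ∃ t : Fin (K + 1) → ℤ, ∑ j, c j * t j = d ∧
      (∀ i j, i ≠ j → 2 * (R : ℤ) < |t i - t j|) ∧ ∀ j, |t j| ≤ C * (R + 1) := by
  obtain ⟨x, hx⟩ := hsol
  obtain ⟨h, hh, hinj⟩ := exists_h hK c hc
  obtain ⟨X, hX⟩ : ∃ X : ℕ, (X : ℤ) = ∑ j, |x j| :=
    ⟨(∑ j, |x j|).toNat, Int.toNat_of_nonneg (Finset.sum_nonneg fun _ _ => abs_nonneg _)⟩
  obtain ⟨H, hH⟩ : ∃ H : ℕ, (H : ℤ) = ∑ j, |h j| :=
    ⟨(∑ j, |h j|).toNat, Int.toNat_of_nonneg (Finset.sum_nonneg fun _ _ => abs_nonneg _)⟩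
  have hxj : ∀ j, |x j| ≤ X := by
    intro j
    rw [hX]
    exact Finset.single_le_sum (f := fun j => |x j|) (fun _ _ => abs_nonneg _) (mem_univ j)
  have hhj : ∀ j, |h j| ≤ H := by
    intro j
    rw [hH]
    exact Finset.single_le_sum (f := fun j => |h j|) (fun _ _ => abs_nonneg _) (mem_univ j)
  refine ⟨X + (2 * X + 2) * H, fun R => ?_⟩
  refine ⟨fun j => x j + (2 * R + 2 * X + 1) * h j, ?_, ?_, ?_⟩
  · have : ∀ j, c j * (x j + (2 * R + 2 * X + 1) * h j) =
        c j * x j + (2 * R + 2 * X + 1) * (c j * h j) := fun j => by ring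
    rw [Finset.sum_congr rfl (fun j _ => this j), Finset.sum_add_distrib, ← Finset.mul_sum, hx, hh]
    ring
  · intro i j hij
    have h1 : 1 ≤ |h i - h j| := by
      apply Int.one_le_abs
      intro h0
      exact hij (hinj (by linarith))
    have h2 : |x i - x j| ≤ 2 * X := by
      have := abs_sub (x i) (x j)
      have := hxj i
      have := hxj j
      linarith
    have h3 : (x i + (2 * R + 2 * X + 1) * h i) - (x j + (2 * R + 2 * X + 1) * h j) =
        (2 * R + 2 * X + 1) * (h i - h j) + (x i - x j) := by ring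
    rw [h3]
    have h4 : |(2 * (R : ℤ) + 2 * X + 1) * (h i - h j)| - |x i - x j| ≤
        |(2 * R + 2 * X + 1) * (h i - h j) + (x i - x j)| := by
      have := abs_sub_abs_le_abs_sub ((2 * (R : ℤ) + 2 * X + 1) * (h i - h j)) (-(x i - x j))
      rw [abs_neg, sub_neg_eq_add] at this
      exact this
    have h5 : |(2 * (R : ℤ) + 2 * X + 1) * (h i - h j)| = (2 * R + 2 * X + 1) * |h i - h j| := by
      rw [abs_mul, abs_of_nonneg (by positivity)]
    rw [h5] at h4
    have h6 : (2 * (R : ℤ) + 2 * X + 1) * 1 ≤ (2 * R + 2 * X + 1) * |h i - h j| :=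
      mul_le_mul_of_nonneg_left h1 (by positivity)
    linarith
  · intro j
    have h1 : |x j + (2 * (R : ℤ) + 2 * X + 1) * h j| ≤ |x j| + (2 * R + 2 * X + 1) * |h j| := by
      refine (abs_add_le _ _).trans (le_of_eq ?_)
      rw [abs_mul, abs_of_nonneg (by positivity : (0 : ℤ) ≤ 2 * R + 2 * X + 1)]
    have h2 : (2 * (R : ℤ) + 2 * X + 1) * |h j| ≤ (2 * X + 2) * (R + 1) * H := by
      apply mul_le_mul _ (hhj j) (abs_nonneg _) (by positivity)
      nlinarith [(Nat.cast_nonneg X : (0 : ℤ) ≤ X), (Nat.cast_nonneg R : (0 : ℤ) ≤ R)]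
    have h3 : |x j| ≤ X * (R + 1) := by
      refine (hxj j).trans ?_
      nlinarith [(Nat.cast_nonneg X : (0 : ℤ) ≤ X), (Nat.cast_nonneg R : (0 : ℤ) ≤ R)]
    push_cast
    calc _ ≤ |x j| + (2 * (R : ℤ) + 2 * X + 1) * |h j| := h1
      _ ≤ X * (R + 1) + (2 * X + 2) * (R + 1) * H := add_le_add h3 h2
      _ = _ := by ring

end Pool.Agent.L0h78.PL
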