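import Pool.Agent.W964.Wd.Triples
import Pool.Agent.W964.Wd.Param
import Pool.Agent.L0h78.PL.Tag

/-! Sorted lists of integers for a general linear equation. -/

set_option linter.unusedSectionVars false
set_option linter.unusedVariables false

namespace Pool.Agent.L0h78.PL

open Finset Pool.Agent.W964.Wd

/-- An instance: a strictly increasing list of `n` integers from `-n ^ (k + 1)` to `n ^ (k + 1)`. -/
def Inst (k n : ℕ) (x : Fin n → ℤ) : Prop := StrictMono x ∧ ∀ i, |x i| ≤ (n : ℤ) ^ (k + 1)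

/-- Different entries of the list satisfy the equation. -/
def Yes {k n : ℕ} (c : Fin k → ℤ) (d : ℤ) (x : Fin n → ℤ) : Prop :=
  ∃ f : Fin k → Fin n, Function.Injective f ∧ ∑ j, c j * x (f j) = d

section lst

variable {K n N : ℕ}

/-- the sign of the kind -/
def sgn (j : Fin (K + 1)) : ℤ := if j = 0 then -1 else 1

/-- the factor of the kind -/
def fac (c : Fin (K + 1) → ℤ) (j : Fin (K + 1)) : ℤ := sgn j * ∏ i ∈ univ.erase j, c i

lemma mul_fac (c : Fin (K + 1) → ℤ) (j : Fin (K + 1)) : c j * fac c j = sgn j * ∏ i, c i := by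
  unfold fac
  rw [← Finset.mul_prod_erase univ c (mem_univ j)]
  ring

lemma fac_ne {c : Fin (K + 1) → ℤ} (hc : ∀ j, c j ≠ 0) (j : Fin (K + 1)) : fac c j ≠ 0 := by
  unfold fac sgn
  apply mul_ne_zero
  · split_ifs <;> norm_num
  · exact Finset.prod_ne_zero_iff.mpr fun i _ => hc i

/-- the kind of a position -/
def ty (K : ℕ) {n : ℕ} (p : Fin n) : Fin (K + 1) := ⟨p % (K + 1), Nat.mod_lt _ (Nat.succ_pos K)⟩

/-- the index of a position within its kind -/
def ix (K : ℕ) {n : ℕ} (p : Fin n) : ℕ := p / (K + 1)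

lemma pos_ext {p p' : Fin n} (h1 : ty K p = ty K p') (h2 : ix K p = ix K p') : p = p' := by
  have h3 : (p : ℕ) % (K + 1) = p' % (K + 1) := congrArg Fin.val h1
  have h4 : (p : ℕ) / (K + 1) = p' / (K + 1) := h2
  apply Fin.ext
  rw [← Nat.div_add_mod (p : ℕ) (K + 1), ← Nat.div_add_mod (p' : ℕ) (K + 1), h3, h4]

/-- the unsorted list -/
def raw (c t : Fin (K + 1) → ℤ) (Z : Fin n → Fin N) (p : Fin n) : ℤ :=
  fac c (ty K p) * (N * (ix K p : ℤ) + ((Z p : ℕ) : ℤ)) + t (ty K p)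

/-- the sum of the absolute values of the factors -/
def fsum (c : Fin (K + 1) → ℤ) : ℕ := (∑ j, |fac c j|).toNat

lemma fac_le (c : Fin (K + 1) → ℤ) (j : Fin (K + 1)) : |fac c j| ≤ fsum c := by
  unfold fsum
  rw [Int.toNat_of_nonneg (Finset.sum_nonneg fun _ _ => abs_nonneg _)]
  exact Finset.single_le_sum (f := fun j => |fac c j|) (fun _ _ => abs_nonneg _) (mem_univ j)

lemma off_le (Z : Fin n → Fin N) (p : Fin n) : N * ix K p + (Z p : ℕ) < N * n := by
  have h1 : ix K p ≤ p := Nat.div_le_self _ _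
  have h2 := p.isLt
  have h3 := (Z p).isLt
  calc N * ix K p + (Z p : ℕ) < N * ix K p + N := by omega
    _ = N * (ix K p + 1) := by ring
    _ ≤ N * n := Nat.mul_le_mul_left _ (by omega)

lemma main_le (c : Fin (K + 1) → ℤ) (Z : Fin n → Fin N) (p : Fin n) :
    |fac c (ty K p) * (N * (ix K p : ℤ) + ((Z p : ℕ) : ℤ))| ≤ ((fsum c * (N * n) : ℕ) : ℤ) := by
  rw [abs_mul, abs_of_nonneg (by positivity : (0 : ℤ) ≤ N * (ix K p : ℤ) + ((Z p : ℕ) : ℤ))]
  have h1 : (N : ℤ) * (ix K p : ℤ) + ((Z p : ℕ) : ℤ) ≤ (N * n : ℕ) := by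
    exact_mod_cast (off_le (K := K) Z p).le
  push_cast at h1 ⊢
  exact mul_le_mul (fac_le c _) h1 (by positivity) (by positivity)

variable {c t : Fin (K + 1) → ℤ}

/-- The tags are far from each other. -/
def Far (c t : Fin (K + 1) → ℤ) (N n : ℕ) : Prop :=
  ∀ i j, i ≠ j → 2 * ((fsum c * (N * n) : ℕ) : ℤ) < |t i - t j|

/-- The order of the entries is fixed. -/
lemma raw_lt (ht : Far c t N n) (Z Z' : Fin n → Fin N) {p p' : Fin n} (hp : p ≠ p')
    (h : raw c t Z p < raw c t Z p') : raw c t Z' p < raw c t Z' p' := by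
  by_cases hty : ty K p = ty K p'
  · have hix : ix K p ≠ ix K p' := fun h' => hp (pos_ext hty h')
    unfold raw at h ⊢
    rw [hty] at h ⊢
    have hlt : ∀ (Y : Fin n → Fin N) (q q' : Fin n), ix K q < ix K q' →
        (N : ℤ) * (ix K q : ℤ) + ((Y q : ℕ) : ℤ) < N * (ix K q' : ℤ) + ((Y q' : ℕ) : ℤ) := by
      intro Y q q' hq
      have h1 := (Y q).isLt
      have h2 : N * ix K q + (Y q : ℕ) < N * ix K q' + (Y q' : ℕ) := by
        calc N * ix K q + (Y q : ℕ) < N * ix K q + N := by omega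
          _ = N * (ix K q + 1) := by ring
          _ ≤ N * ix K q' := Nat.mul_le_mul_left _ hq
          _ ≤ _ := Nat.le_add_right _ _
      exact_mod_cast h2
    have h' : fac c (ty K p') * (N * (ix K p : ℤ) + ((Z p : ℕ) : ℤ)) <
        fac c (ty K p') * (N * (ix K p' : ℤ) + ((Z p' : ℕ) : ℤ)) := by linarith
    have goal : fac c (ty K p') * (N * (ix K p : ℤ) + ((Z' p : ℕ) : ℤ)) <
        fac c (ty K p') * (N * (ix K p' : ℤ) + ((Z' p' : ℕ) : ℤ)) := by
      rcases lt_trichotomy (fac c (ty K p')) 0 with hm | hm | hm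
      · rcases Nat.lt_or_gt_of_ne hix with h1 | h1
        · exfalso
          have := hlt Z p p' h1
          nlinarith
        · have := hlt Z' p' p h1
          nlinarith
      · rw [hm] at h'
        simp at h'
      · rcases Nat.lt_or_gt_of_ne hix with h1 | h1
        · have := hlt Z' p p' h1
          nlinarith
        · exfalso
          have := hlt Z p' p h1
          nlinarith
    linarith
  · have h1 := ht _ _ hty
    have a1 := abs_le.mp (main_le c Z p)
    have a2 := abs_le.mp (main_le c Z p')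
    have a3 := abs_le.mp (main_le c Z' p)
    have a4 := abs_le.mp (main_le c Z' p')
    unfold raw at h ⊢
    rcases lt_abs.mp h1 with h2 | h2
    · exfalso
      linarith [a1.1, a1.2, a2.1, a2.2]
    · linarith [a3.1, a3.2, a4.1, a4.2]

lemma raw_ne (hN : 0 < N) (hc : ∀ j, c j ≠ 0) (ht : Far c t N n) (Z : Fin n → Fin N) {p p' : Fin n}
    (hp : p ≠ p') : raw c t Z p ≠ raw c t Z p' := by
  intro h
  by_cases hty : ty K p = ty K p'
  · have hix : ix K p ≠ ix K p' := fun h' => hp (pos_ext hty h')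
    unfold raw at h
    rw [hty] at h
    have h1 : fac c (ty K p') * (N * (ix K p : ℤ) + ((Z p : ℕ) : ℤ)) =
        fac c (ty K p') * (N * (ix K p' : ℤ) + ((Z p' : ℕ) : ℤ)) := by linarith
    have h2 := mul_left_cancel₀ (fac_ne hc _) h1
    have h3 : N * ix K p + (Z p : ℕ) = N * ix K p' + (Z p' : ℕ) := by exact_mod_cast h2
    apply hix
    have e1 : (N * ix K p + (Z p : ℕ)) / N = ix K p := by
      rw [Nat.mul_add_div hN, Nat.div_eq_of_lt (Z p).isLt, Nat.add_zero]
    have e2 : (N * ix K p' + (Z p' : ℕ)) / N = ix K p' := by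
      rw [Nat.mul_add_div hN, Nat.div_eq_of_lt (Z p').isLt, Nat.add_zero]
    rw [← e1, h3, e2]
  · have h1 := ht _ _ hty
    have a1 := abs_le.mp (main_le c Z p)
    have a2 := abs_le.mp (main_le c Z p')
    unfold raw at h
    rcases lt_abs.mp h1 with h2 | h2
    · linarith [a1.1, a1.2, a2.1, a2.2]
    · linarith [a1.1, a1.2, a2.1, a2.2]

/-- the sorted list -/
noncomputable def srt (c t : Fin (K + 1) → ℤ) (hN : 0 < N) (Z : Fin n → Fin N) (i : Fin n) : ℤ :=
  raw c t Z (Tuple.sort (raw c t (fun _ => (⟨0, hN⟩ : Fin N))) i)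

lemma srt_mono (hN : 0 < N) (hc : ∀ j, c j ≠ 0) (ht : Far c t N n) (Z : Fin n → Fin N) :
    StrictMono (srt c t hN Z) := by
  intro a b hab
  unfold srt
  obtain ⟨σ, hσ⟩ : ∃ σ, σ = Tuple.sort (raw (n := n) c t (fun _ => (⟨0, hN⟩ : Fin N))) := ⟨_, rfl⟩
  rw [← hσ]
  have h1 : σ a ≠ σ b := fun h => hab.ne (σ.injective h)
  have h2 : raw c t (fun _ => (⟨0, hN⟩ : Fin N)) (σ a) ≤ raw c t (fun _ => (⟨0, hN⟩ : Fin N)) (σ b) := by
    have := Tuple.monotone_sort (raw (n := n) c t (fun _ => (⟨0, hN⟩ : Fin N)))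
    rw [hσ]
    exact this hab.le
  exact raw_lt ht _ Z h1 (lt_of_le_of_ne h2 (raw_ne hN hc ht _ h1))

lemma raw_congr {Z Z' : Fin n → Fin N} {p : Fin n} (h : Z p = Z' p) :
    raw c t Z p = raw c t Z' p := by
  unfold raw
  rw [h]

lemma srt_blk (hN : 0 < N) : Blk (srt (n := n) c t hN) := by
  intro j
  exact ⟨Tuple.sort (raw (n := n) c t (fun _ => (⟨0, hN⟩ : Fin N))) j, fun Y Y' h => raw_congr h⟩

lemma srt_yes (hN : 0 < N) {d : ℤ} (Z : Fin n → Fin N) :
    Yes c d (srt c t hN Z) ↔ Yes c d (raw c t Z) := by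
  obtain ⟨σ, hσ⟩ : ∃ σ, σ = Tuple.sort (raw (n := n) c t (fun _ => (⟨0, hN⟩ : Fin N))) := ⟨_, rfl⟩
  have e : srt c t hN Z = fun i => raw c t Z (σ i) := by rw [hσ]; rfl
  rw [e]
  constructor
  · rintro ⟨f, hf, h⟩
    exact ⟨fun j => σ (f j), fun a b hab => hf (σ.injective hab), h⟩
  · rintro ⟨f, hf, h⟩
    refine ⟨fun j => σ.symm (f j), fun a b hab => hf (σ.symm.injective hab), ?_⟩
    simp only [Equiv.apply_symm_apply]
    exact h

lemma raw_le {C : ℕ} (hC : ∀ j, |t j| ≤ C * (((fsum c * (N * n) : ℕ) : ℤ) + 1)) (Z : Fin n → Fin N)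
    (p : Fin n) : |raw c t Z p| ≤ (((C + 1) * (fsum c * (N * n) + 1) : ℕ) : ℤ) := by
  unfold raw
  refine (abs_add_le _ _).trans ?_
  have h1 := main_le c Z p
  have h2 := hC (ty K p)
  push_cast at h1 h2 ⊢
  nlinarith

end lst

end Pool.Agent.L0h78.PL
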