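import Pool.Agent.L0h78.PL.Lst

/-! Random lists have no solution; planted solutions. -/

set_option linter.unusedSectionVars false
set_option linter.unusedVariables false

namespace Pool.Agent.L0h78.PL

open Finset Pool.Agent.W964.Wd H568R2 H592R3 Pool.Agent.W964.Pram

section rnd

variable {K n N : ℕ} {c t : Fin (K + 1) → ℤ} {d : ℤ}

/-- the interval of the position `p` contains a solution -/
def Hit (c t : Fin (K + 1) → ℤ) (N : ℕ) {n : ℕ} (p : Fin n) (v : ℤ) : Prop :=
  ∃ a : Fin N, c 0 * (fac c (ty K p) * (N * (ix K p : ℤ) + ((a : ℕ) : ℤ)) + t (ty K p)) = v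

lemma hit_val (hN : 0 < N) (hc : ∀ j, c j ≠ 0) {p p' : Fin n} {a a' : Fin N}
    (hty : ty K p = ty K p')
    (h : c 0 * (fac c (ty K p) * (N * (ix K p : ℤ) + ((a : ℕ) : ℤ)) + t (ty K p)) =
      c 0 * (fac c (ty K p') * (N * (ix K p' : ℤ) + ((a' : ℕ) : ℤ)) + t (ty K p'))) :
    ix K p = ix K p' ∧ a = a' := by
  rw [hty] at h
  have h1 := mul_left_cancel₀ (hc 0) h
  have h2 : fac c (ty K p') * (N * (ix K p : ℤ) + ((a : ℕ) : ℤ)) =
      fac c (ty K p') * (N * (ix K p' : ℤ) + ((a' : ℕ) : ℤ)) := by linarith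
  have h3 := mul_left_cancel₀ (fac_ne hc _) h2
  have h4 : N * ix K p + (a : ℕ) = N * ix K p' + (a' : ℕ) := by exact_mod_cast h3
  have e1 : (N * ix K p + (a : ℕ)) / N = ix K p := by
    rw [Nat.mul_add_div hN, Nat.div_eq_of_lt a.isLt, Nat.add_zero]
  have e2 : (N * ix K p' + (a' : ℕ)) / N = ix K p' := by
    rw [Nat.mul_add_div hN, Nat.div_eq_of_lt a'.isLt, Nat.add_zero]
  have h5 : ix K p = ix K p' := by rw [← e1, h4, e2]
  refine ⟨h5, ?_⟩
  rw [h5] at h4
  apply Fin.ext
  omega

open Classical in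
lemma hit_count (hN : 0 < N) (hc : ∀ j, c j ≠ 0) (v : ℤ) :
    (univ.filter (fun p : Fin n => Hit c t N p v)).card ≤ K + 1 := by
  have h := Finset.card_le_card_of_injOn (s := univ.filter (fun p : Fin n => Hit c t N p v))
    (t := (univ : Finset (Fin (K + 1)))) (fun p => ty K p) (fun p _ => mem_coe.mpr (mem_univ _)) (by
      intro p hp p' hp' hty
      obtain ⟨a, ha⟩ := (Finset.mem_filter.mp hp).2
      obtain ⟨a', ha'⟩ := (Finset.mem_filter.mp hp').2
      exact pos_ext hty (hit_val hN hc hty (ha.trans ha'.symm)).1)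
  rwa [Finset.card_univ, Fintype.card_fin] at h

/-- the value that the first entry must have -/
def val0 (c t : Fin (K + 1) → ℤ) (d : ℤ) (Z : Fin n → Fin N) (f : Fin K → Fin n) : ℤ :=
  d - ∑ j, c (Fin.succ j) * raw c t Z (f j)

open Classical in
lemma eq_prob (hN : 0 < N) (hc : ∀ j, c j ≠ 0) (p : Fin n) (f : Fin K → Fin n) :
    Ex (fun _ : Fin N => 1 / (N : ℝ)) (fun Z : Fin n → Fin N =>
      if ((∀ j, f j ≠ p) ∧ c 0 * raw c t Z p = val0 c t d Z f) then (1 : ℝ) else 0) ≤
    Ex (fun _ : Fin N => 1 / (N : ℝ)) (fun Z : Fin n → Fin N =>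
      (1 / (N : ℝ)) * (if Hit c t N p (val0 c t d Z f) then (1 : ℝ) else 0)) := by
  have hNR : (0 : ℝ) < N := by exact_mod_cast hN
  have hl : ∀ a : Fin N, (0 : ℝ) ≤ (fun _ : Fin N => 1 / (N : ℝ)) a := fun _ => by positivity
  have hl1 : ∑ _a : Fin N, (1 / (N : ℝ)) = 1 := by
    rw [Finset.sum_const, Finset.card_univ, Fintype.card_fin, nsmul_eq_mul]
    field_simp
  rw [Ex_resample hl1 _ p]
  apply Ex_mono hl
  intro Z
  rw [← Finset.mul_sum]
  apply mul_le_mul_of_nonneg_left _ (by positivity)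
  by_cases hf : ∀ j, f j ≠ p
  · have e1 : ∀ a : Fin N, val0 c t d (Function.update Z p a) f = val0 c t d Z f := by
      intro a
      unfold val0
      congr 1
      apply Finset.sum_congr rfl
      intro j _
      rw [raw_congr (Z' := Z) (Function.update_of_ne (hf j) _ _)]
    have e2 : ∀ a : Fin N, raw c t (Function.update Z p a) p =
        fac c (ty K p) * (N * (ix K p : ℤ) + ((a : ℕ) : ℤ)) + t (ty K p) := by
      intro a
      unfold raw
      rw [Function.update_self]
    simp only [e1, e2]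
    rw [Finset.sum_boole]
    by_cases hh : Hit c t N p (val0 c t d Z f)
    · rw [if_pos hh]
      have : (univ.filter (fun a : Fin N => (∀ j, f j ≠ p) ∧
          c 0 * (fac c (ty K p) * (N * (ix K p : ℤ) + ((a : ℕ) : ℤ)) + t (ty K p)) =
            val0 c t d Z f)).card ≤ 1 := by
        rw [Finset.card_le_one]
        intro a ha b hb
        have ha' := (Finset.mem_filter.1 ha).2.2
        have hb' := (Finset.mem_filter.1 hb).2.2
        exact (hit_val hN hc rfl (ha'.trans hb'.symm)).2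
      exact_mod_cast this
    · rw [if_neg hh]
      have : univ.filter (fun a : Fin N => (∀ j, f j ≠ p) ∧
          c 0 * (fac c (ty K p) * (N * (ix K p : ℤ) + ((a : ℕ) : ℤ)) + t (ty K p)) =
            val0 c t d Z f) = ∅ := by
        rw [Finset.filter_eq_empty_iff]
        rintro a _ ⟨_, h4⟩
        exact hh ⟨a, h4⟩
      rw [this]
      simp
  · have : ∀ a : Fin N, ¬ ((∀ j, f j ≠ p) ∧ c 0 * raw c t (Function.update Z p a) p =
        val0 c t d (Function.update Z p a) f) := fun a h => hf h.1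
    simp only [this, if_false, Finset.sum_const_zero]
    split_ifs <;> norm_num

open Classical in
/-- Random lists have no solution with probability at least one half. -/
lemma yes_prob (hN : 0 < N) (hc : ∀ j, c j ≠ 0) (hNn : 2 * ((K + 1) * n ^ K) ≤ N) :
    Ex (fun _ : Fin N => 1 / (N : ℝ)) (fun Z : Fin n → Fin N =>
      if Yes c d (raw c t Z) then (1 : ℝ) else 0) ≤ 1 / 2 := by
  have hNR : (0 : ℝ) < N := by exact_mod_cast hN
  have hl : ∀ a : Fin N, (0 : ℝ) ≤ (fun _ : Fin N => 1 / (N : ℝ)) a := fun _ => by positivity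
  have hl1 : ∑ _a : Fin N, (1 / (N : ℝ)) = 1 := by
    rw [Finset.sum_const, Finset.card_univ, Fintype.card_fin, nsmul_eq_mul]
    field_simp
  obtain ⟨e, he⟩ : ∃ e : Fin n → (Fin K → Fin n) → (Fin n → Fin N) → ℝ, e = fun p f Z =>
      if ((∀ j, f j ≠ p) ∧ c 0 * raw c t Z p = val0 c t d Z f) then (1 : ℝ) else 0 := ⟨_, rfl⟩
  have he0 : ∀ p f Z, 0 ≤ e p f Z := by
    intro p f Z; rw [he]; dsimp only; split_ifs <;> norm_num
  have hpt : ∀ Z : Fin n → Fin N, (if Yes c d (raw c t Z) then (1 : ℝ) else 0) ≤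
      ∑ f : Fin K → Fin n, ∑ p, e p f Z := by
    intro Z
    by_cases hy : Yes c d (raw c t Z)
    · rw [if_pos hy]
      obtain ⟨f, hf, h⟩ := hy
      have h1 : e (f 0) (fun j => f j.succ) Z = 1 := by
        rw [he]
        dsimp only
        rw [if_pos]
        constructor
        · intro j hj
          exact Fin.succ_ne_zero j (hf hj)
        · unfold val0
          rw [Fin.sum_univ_succ] at h
          linarith
      calc (1 : ℝ) = e (f 0) (fun j => f j.succ) Z := h1.symm
        _ ≤ ∑ p, e p (fun j => f j.succ) Z :=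
            Finset.single_le_sum (f := fun p => e p (fun j => f j.succ) Z)
              (fun p _ => he0 _ _ _) (mem_univ (f 0))
        _ ≤ ∑ g : Fin K → Fin n, ∑ p, e p g Z :=
            Finset.single_le_sum (f := fun g : Fin K → Fin n => ∑ p, e p g Z)
              (fun g _ => Finset.sum_nonneg fun p _ => he0 _ _ _) (mem_univ _)
    · rw [if_neg hy]
      exact Finset.sum_nonneg fun f _ => Finset.sum_nonneg fun p _ => he0 _ _ _
  refine (Ex_mono hl hpt).trans ?_
  rw [Ex_sum]
  have h1 : ∀ f ∈ (univ : Finset (Fin K → Fin n)),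
      Ex (fun _ : Fin N => 1 / (N : ℝ)) (fun Z : Fin n → Fin N => ∑ p, e p f Z) ≤
      ((K : ℝ) + 1) / N := by
    intro f _
    rw [Ex_sum]
    have h2 : ∀ p, Ex (fun _ : Fin N => 1 / (N : ℝ)) (fun Z : Fin n → Fin N => e p f Z) ≤
        Ex (fun _ : Fin N => 1 / (N : ℝ)) (fun Z : Fin n → Fin N =>
      (1 / (N : ℝ)) * (if Hit c t N p (val0 c t d Z f) then (1 : ℝ) else 0)) := by
      intro p
      rw [he]
      exact eq_prob hN hc p f
    refine (Finset.sum_le_sum fun p _ => h2 p).trans ?_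
    rw [← Ex_sum]
    have h3 : ∀ Z : Fin n → Fin N, ∑ p : Fin n, (1 / (N : ℝ)) *
        (if Hit c t N p (val0 c t d Z f) then (1 : ℝ) else 0) ≤ ((K : ℝ) + 1) / N := by
      intro Z
      rw [← Finset.mul_sum, Finset.sum_boole]
      have h4 := hit_count (n := n) (t := t) hN hc (val0 c t d Z f)
      have h5 : (((univ.filter (fun p : Fin n => Hit c t N p (val0 c t d Z f))).card : ℕ) : ℝ) ≤
          (K : ℝ) + 1 := by exact_mod_cast h4
      rw [div_mul_eq_mul_div, one_mul]
      exact div_le_div_of_nonneg_right h5 hNR.le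
    refine (Ex_mono hl h3).trans (le_of_eq ?_)
    exact Ex_const hl1 _
  refine (Finset.sum_le_sum h1).trans ?_
  rw [Finset.sum_const, Finset.card_univ, Fintype.card_fun, Fintype.card_fin, Fintype.card_fin,
    nsmul_eq_mul]
  have h2 : 2 * (((K : ℝ) + 1) * (n : ℝ) ^ K) ≤ N := by exact_mod_cast hNn
  rw [mul_div_assoc', div_le_div_iff₀ hNR (by norm_num)]
  push_cast
  linarith

end rnd

section plant

variable {K n N N0 m : ℕ}

lemma sum_lt {b : ℕ} (hK : 1 ≤ K) (w : Fin K → Fin b) : ∑ i, (w i : ℕ) < K * b := by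
  have hne : (univ : Finset (Fin K)).Nonempty := ⟨⟨0, by omega⟩, mem_univ _⟩
  calc ∑ i, (w i : ℕ) < ∑ _i : Fin K, b := Finset.sum_lt_sum_of_nonempty hne fun i _ => (w i).isLt
    _ = K * b := by rw [Finset.sum_const, Finset.card_univ, Fintype.card_fin, smul_eq_mul]

/-- the positions of a planted solution -/
def vpos (hK : 1 ≤ K) (hm : (K + 1) * (K * m) ≤ n) (κ : Fin K → Fin m) : Fin (K + 1) → Fin n :=
  Fin.cons ⟨(K + 1) * ∑ i, (κ i : ℕ), lt_of_lt_of_le
      (Nat.mul_lt_mul_of_pos_left (sum_lt hK κ) (Nat.succ_pos K)) hm⟩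
    (fun i => ⟨(K + 1) * κ i + (i + 1), by
      have h1 := (κ i).isLt
      have h2 := i.isLt
      calc (K + 1) * κ i + (i + 1) < (K + 1) * κ i + (K + 1) := by omega
        _ = (K + 1) * (κ i + 1) := by ring
        _ ≤ (K + 1) * (K * m) := Nat.mul_le_mul_left _ (by nlinarith)
        _ ≤ n := hm⟩)

/-- the planted numbers -/
def yv (hK : 1 ≤ K) (hN : K * N0 ≤ N) (w : Fin K → Fin N0) : Fin (K + 1) → Fin N :=
  Fin.cons ⟨∑ i, (w i : ℕ), lt_of_lt_of_le (sum_lt hK w) hN⟩
    (fun i => ⟨w i, by have h1 := (w i).isLt; nlinarith⟩)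

variable (hK : 1 ≤ K) (hm : (K + 1) * (K * m) ≤ n) (hN : K * N0 ≤ N)

lemma vpos0 (κ : Fin K → Fin m) : (vpos hK hm κ 0 : ℕ) = (K + 1) * ∑ i, (κ i : ℕ) := rfl

lemma vposs (κ : Fin K → Fin m) (i : Fin K) :
    (vpos hK hm κ i.succ : ℕ) = (K + 1) * κ i + (i + 1) := rfl

lemma ty_vpos (κ : Fin K → Fin m) (j : Fin (K + 1)) : ty K (vpos hK hm κ j) = j := by
  apply Fin.ext
  show (vpos hK hm κ j : ℕ) % (K + 1) = j
  induction j using Fin.cases with
  | zero => rw [vpos0, Nat.mul_mod_right]; rfl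
  | succ i =>
    rw [vposs, Nat.mul_add_mod, Nat.mod_eq_of_lt (by have := i.isLt; omega)]
    rfl

lemma ix_vpos0 (κ : Fin K → Fin m) : ix K (vpos hK hm κ 0) = ∑ i, (κ i : ℕ) := by
  show (vpos hK hm κ 0 : ℕ) / (K + 1) = _
  rw [vpos0, Nat.mul_div_cancel_left _ (Nat.succ_pos K)]

lemma ix_vposs (κ : Fin K → Fin m) (i : Fin K) : ix K (vpos hK hm κ i.succ) = κ i := by
  show (vpos hK hm κ i.succ : ℕ) / (K + 1) = _
  rw [vposs, Nat.mul_add_div (Nat.succ_pos K), Nat.div_eq_of_lt (by have := i.isLt; omega),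
    Nat.add_zero]

lemma vpos_inj (κ : Fin K → Fin m) : Function.Injective (vpos hK hm κ) := by
  intro a b h
  rw [← ty_vpos hK hm κ a, ← ty_vpos hK hm κ b, h]

/-- Planted lists have a solution. -/
lemma planted_yes {c t : Fin (K + 1) → ℤ} {d : ℤ} (ht : ∑ j, c j * t j = d) (κ : Fin K → Fin m)
    (Z : Fin n → Fin N) (w : Fin K → Fin N0) :
    Yes c d (raw c t (Function.extend (vpos hK hm κ) (yv hK hN w) Z)) := by
  have hinj := vpos_inj hK hm κ
  refine ⟨vpos hK hm κ, hinj, ?_⟩
  have e : ∀ j, c j * raw c t (Function.extend (vpos hK hm κ) (yv hK hN w) Z) (vpos hK hm κ j) =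
      (∏ i, c i) * (sgn j * (N * (ix K (vpos hK hm κ j) : ℤ) + ((yv hK hN w j : ℕ) : ℤ))) +
        c j * t j := by
    intro j
    unfold raw
    rw [hinj.extend_apply, ty_vpos]
    have := mul_fac c j
    linear_combination (N * (ix K (vpos hK hm κ j) : ℤ) + ((yv hK hN w j : ℕ) : ℤ)) * this
  rw [Finset.sum_congr rfl (fun j _ => e j), Finset.sum_add_distrib, ht, ← Finset.mul_sum,
    Fin.sum_univ_succ]
  have h1 : ∀ i : Fin K, sgn (i.succ) * (N * (ix K (vpos hK hm κ i.succ) : ℤ) +
      ((yv hK hN w i.succ : ℕ) : ℤ)) = N * ((κ i : ℕ) : ℤ) + ((w i : ℕ) : ℤ) := by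
    intro i
    rw [ix_vposs]
    have : sgn (i.succ) = 1 := by
      unfold sgn
      rw [if_neg (Fin.succ_ne_zero i)]
    rw [this, one_mul]
    rfl
  have h0 : (sgn (0 : Fin (K + 1)) : ℤ) = -1 := by
    unfold sgn
    rw [if_pos rfl]
  have h2 : ((yv hK hN w 0 : ℕ) : ℤ) = ∑ i, ((w i : ℕ) : ℤ) := by
    have : (yv hK hN w 0 : ℕ) = ∑ i, (w i : ℕ) := rfl
    rw [this]
    push_cast
    rfl
  rw [Finset.sum_congr rfl (fun i _ => h1 i), h0, ix_vpos0, h2, Finset.sum_add_distrib,
    ← Finset.mul_sum]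
  push_cast
  ring

/-- The planted values are dominated by random ones on every proper subset. -/
lemma plant_dom (hN0 : 0 < N0) (H : Finset (Fin (K + 1))) (hH : H.card ≤ K)
    (G : (Fin (K + 1) → Fin (K * N0)) → ℝ) (hG0 : ∀ y, 0 ≤ G y)
    (hG : ∀ y y', (∀ h ∈ H, y h = y' h) → G y = G y') :
    ∑ w : Fin K → Fin N0, (1 / (N0 : ℝ)) ^ K * G (yv hK le_rfl w) ≤
      (K : ℝ) ^ K * Ex (fun _ : Fin (K * N0) => 1 / ((K * N0 : ℕ) : ℝ)) G := by
  obtain ⟨j, hj⟩ : ∃ j : Fin (K + 1), j ∉ H := by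
    by_contra hcon
    push Not at hcon
    have : H = univ := by ext j; simp [hcon j]
    rw [this, Finset.card_univ, Fintype.card_fin] at hH
    omega
  obtain ⟨Φ, hΦ⟩ : ∃ Φ : Fin (K * N0) × (Fin K → Fin N0) → (Fin (K + 1) → Fin (K * N0)),
    Φ = fun p => Function.update (yv hK le_rfl p.2) j p.1 := ⟨_, rfl⟩
  have hinj : Function.Injective Φ := by
    rintro ⟨a, w⟩ ⟨a', w'⟩ h
    rw [hΦ] at h
    dsimp only at h
    have ha : a = a' := by
      have := congrFun h j
      rwa [Function.update_self, Function.update_self] at this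
    have hother : ∀ l, l ≠ j → yv hK le_rfl w l = yv hK le_rfl w' l := by
      intro l hl
      have := congrFun h l
      rwa [Function.update_of_ne hl, Function.update_of_ne hl] at this
    have hw : ∀ i : Fin K, i.succ ≠ j → w i = w' i := by
      intro i hi
      have := congrArg Fin.val (hother _ hi)
      exact Fin.ext this
    have hww : w = w' := by
      funext i
      by_cases hi : i.succ = j
      · have h0 : (0 : Fin (K + 1)) ≠ j := by
          rw [← hi]
          exact (Fin.succ_ne_zero i).symm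
        have h1 : ∑ l, (w l : ℕ) = ∑ l, (w' l : ℕ) := congrArg Fin.val (hother 0 h0)
        rw [← Finset.add_sum_erase univ _ (mem_univ i), ← Finset.add_sum_erase univ _ (mem_univ i)]
          at h1
        have h2 : ∑ x ∈ univ.erase i, (w x : ℕ) = ∑ x ∈ univ.erase i, (w' x : ℕ) := by
          apply Finset.sum_congr rfl
          intro l hl
          rw [hw l]
          intro h3
          rw [← hi] at h3
          exact (Finset.ne_of_mem_erase hl) (Fin.succ_injective _ h3)
        apply Fin.ext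
        omega
      · exact hw i hi
    rw [ha, hww]
  have h1 : ∑ p : Fin (K * N0) × (Fin K → Fin N0), G (Φ p) ≤ ∑ y, G y := by
    rw [← Finset.sum_image (f := G) (s := univ) (g := Φ) (fun a _ b _ h => hinj h)]
    exact Finset.sum_le_sum_of_subset_of_nonneg (subset_univ _) fun y _ _ => hG0 y
  have h2 : ∀ p : Fin (K * N0) × (Fin K → Fin N0), G (Φ p) = G (yv hK le_rfl p.2) := by
    intro p
    rw [hΦ]
    apply hG
    intro h hh
    have : h ≠ j := fun e => hj (e ▸ hh)
    exact Function.update_of_ne this _ _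
  rw [Fintype.sum_prod_type] at h1
  simp only [h2] at h1
  rw [Finset.sum_const, Finset.card_univ, Fintype.card_fin, nsmul_eq_mul] at h1
  have hKR : (0 : ℝ) < K := by exact_mod_cast (by omega : 0 < K)
  have hNR : (0 : ℝ) < N0 := by exact_mod_cast hN0
  have h3 : Ex (fun _ : Fin (K * N0) => 1 / ((K * N0 : ℕ) : ℝ)) G =
      (1 / ((K : ℝ) * N0)) ^ (K + 1) * ∑ y, G y := by
    unfold Ex
    simp only [Finset.prod_const, Finset.card_univ, Fintype.card_fin]
    rw [← Finset.mul_sum]
    push_cast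
    rfl
  rw [h3, ← Finset.mul_sum]
  push_cast at h1
  have h4 : (1 / (N0 : ℝ)) ^ K * ∑ w : Fin K → Fin N0, G (yv hK le_rfl w) =
      (K : ℝ) ^ K * ((1 / ((K : ℝ) * N0)) ^ (K + 1) *
        ((K : ℝ) * N0 * ∑ w : Fin K → Fin N0, G (yv hK le_rfl w))) := by
    rw [one_div_pow, one_div_pow, mul_pow]
    field_simp
    ring
  rw [h4]
  apply mul_le_mul_of_nonneg_left _ (by positivity)
  exact mul_le_mul_of_nonneg_left h1 (by positivity)

open Classical in
/-- The number of planted solutions through given positions. -/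
lemma vpos_count (H : Finset (Fin (K + 1))) (V : Finset (Fin n)) (hH1 : 1 ≤ H.card)
    (hH2 : H.card ≤ K) :
    (univ.filter (fun κ : Fin K → Fin m => H.image (vpos hK hm κ) = V)).card ≤
      m ^ (K - H.card) := by
  -- equal positions
  have heq : ∀ κ κ' : Fin K → Fin m, H.image (vpos hK hm κ) = V → H.image (vpos hK hm κ') = V →
      ∀ j ∈ H, vpos hK hm κ j = vpos hK hm κ' j := by
    intro κ κ' h h' j hj
    have h1 : vpos hK hm κ j ∈ H.image (vpos hK hm κ') := by
      rw [h', ← h]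
      exact Finset.mem_image_of_mem _ hj
    obtain ⟨j', -, h2⟩ := Finset.mem_image.mp h1
    have h3 : j' = j := by rw [← ty_vpos hK hm κ' j', h2, ty_vpos]
    rw [← h2, h3]
  have hsucc : ∀ κ κ' : Fin K → Fin m, H.image (vpos hK hm κ) = V →
      H.image (vpos hK hm κ') = V → ∀ i : Fin K, i.succ ∈ H → κ i = κ' i := by
    intro κ κ' h h' i hi
    have h1 := heq κ κ' h h' _ hi
    apply Fin.ext
    rw [← ix_vposs hK hm κ i, ← ix_vposs hK hm κ' i, h1]
  have hzero : ∀ κ κ' : Fin K → Fin m, H.image (vpos hK hm κ) = V →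
      H.image (vpos hK hm κ') = V → 0 ∈ H → ∑ i, (κ i : ℕ) = ∑ i, (κ' i : ℕ) := by
    intro κ κ' h h' h0
    have h1 := heq κ κ' h h' _ h0
    rw [← ix_vpos0 hK hm κ, ← ix_vpos0 hK hm κ', h1]
  -- a set of coordinates that are determined by the others
  obtain ⟨R, hR, hdet⟩ : ∃ R : Finset (Fin K), R.card = H.card ∧ ∀ κ κ' : Fin K → Fin m,
      H.image (vpos hK hm κ) = V → H.image (vpos hK hm κ') = V → (∀ i ∉ R, κ i = κ' i) →
      κ = κ' := by
    obtain ⟨S, hS⟩ : ∃ S : Finset (Fin K), S = univ.filter (fun i => i.succ ∈ H) := ⟨_, rfl⟩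
    have hSmem : ∀ i, i ∈ S ↔ i.succ ∈ H := by
      intro i
      rw [hS, Finset.mem_filter]
      simp
    have hSimg : S.image Fin.succ = H.erase 0 := by
      ext j
      rw [Finset.mem_image, Finset.mem_erase]
      constructor
      · rintro ⟨i, hi, rfl⟩
        exact ⟨Fin.succ_ne_zero i, (hSmem i).mp hi⟩
      · rintro ⟨h0, hj⟩
        obtain ⟨i, rfl⟩ := Fin.exists_succ_eq.mpr h0
        exact ⟨i, (hSmem i).mpr hj, rfl⟩
    have hScard : S.card = (H.erase 0).card := by
      rw [← hSimg, Finset.card_image_of_injective _ (Fin.succ_injective _)]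
    by_cases h0 : (0 : Fin (K + 1)) ∈ H
    · rw [Finset.card_erase_of_mem h0] at hScard
      obtain ⟨i, hi⟩ : ∃ i, i ∉ S := by
        by_contra hcon
        push Not at hcon
        have : S = univ := by ext i; simp [hcon i]
        rw [this, Finset.card_univ, Fintype.card_fin] at hScard
        omega
      refine ⟨insert i S, by rw [Finset.card_insert_of_notMem hi, hScard]; omega, ?_⟩
      intro κ κ' h h' hκ
      have h1 : ∀ l, l ≠ i → κ l = κ' l := by
        intro l hl
        by_cases hlS : l ∈ S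
        · exact hsucc κ κ' h h' l ((hSmem l).mp hlS)
        · apply hκ
          rw [Finset.mem_insert]
          push Not
          exact ⟨hl, hlS⟩
      have h2 := hzero κ κ' h h' h0
      rw [← Finset.add_sum_erase univ _ (mem_univ i), ← Finset.add_sum_erase univ _ (mem_univ i)]
        at h2
      have h3 : ∑ x ∈ univ.erase i, (κ x : ℕ) = ∑ x ∈ univ.erase i, (κ' x : ℕ) := by
        apply Finset.sum_congr rfl
        intro l hl
        rw [h1 l (Finset.ne_of_mem_erase hl)]
      funext l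
      by_cases hl : l = i
      · rw [hl]
        apply Fin.ext
        omega
      · exact h1 l hl
    · rw [Finset.erase_eq_of_notMem h0] at hScard
      refine ⟨S, hScard, ?_⟩
      intro κ κ' h h' hκ
      funext l
      by_cases hlS : l ∈ S
      · exact hsucc κ κ' h h' l ((hSmem l).mp hlS)
      · exact hκ l hlS
  have h1 := Finset.card_le_card_of_injOn (s := univ.filter
    (fun κ : Fin K → Fin m => H.image (vpos hK hm κ) = V))
    (t := (univ : Finset ({i : Fin K // i ∉ R} → Fin m))) (fun κ i => κ i.1)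
    (fun κ _ => Finset.mem_coe.2 (Finset.mem_univ _)) (by
      intro κ hκ κ' hκ' h
      apply hdet κ κ' (Finset.mem_filter.1 (Finset.mem_coe.1 hκ)).2
        (Finset.mem_filter.1 (Finset.mem_coe.1 hκ')).2
      intro i hi
      exact congrFun h ⟨i, hi⟩)
  refine h1.trans (le_of_eq ?_)
  rw [Finset.card_univ, Fintype.card_fun, Fintype.card_fin]
  congr 1
  rw [Fintype.card_subtype_compl, Fintype.card_fin, Fintype.card_coe, hR]

end plant

end Pool.Agent.L0h78.PL
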